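import Pool.Agent.H240.NX.Lim
import Pool.Agent.H240.QX.Surf2
import Pool.Agent.H240.QX.SymEx

/-!
# Exceptional sets of eigenfunctions persist under small perturbations of the metric
-/

set_option autoImplicit false
set_option linter.unusedSectionVars false

open Set Filter Topology MeasureTheory
open scoped Real ContDiff

noncomputable section

namespace Pool.Agent.H240.NX

open Pool.Agent.Y262.QE Pool.Agent.Y264.QR Pool.Agent.Y986.QE Pool.Agent.H240.QX

section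

variable {M : Type} [MetricSpace M] [CompactSpace M] [MeasurableSpace M] [BorelSpace M]

theorem kap_eq {μ : Measure M} {D : Data M} {i : HF D μ →L[ℝ] Lp ℝ 2 μ}
    (f φ : C(M, ℝ)) (v : HF D μ) (u : M → ℝ) (h : (i v : M → ℝ) =ᵐ[μ] u) :
    kap μ i f φ v = ∫ x, f x * (u x) ^ 2 ∂(wm μ fun x => Real.exp (φ x)) := by
  have hm : Measurable fun x => Real.exp (φ x) := (Real.continuous_exp.comp φ.continuous).measurable
  rw [integral_wm μ _ hm (fun x => (Real.exp_pos _).le)]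
  unfold kap
  refine integral_congr_ae ?_
  filter_upwards [h] with x hx
  rw [hx]
  ring

theorem avg_eq {μ : Measure M} [IsFiniteMeasure μ] (f φ : C(M, ℝ)) :
    avg μ f φ = (∫ x, f x ∂(wm μ fun x => Real.exp (φ x))) /
      (wm μ fun x => Real.exp (φ x)).real univ := by
  have hm : Measurable fun x => Real.exp (φ x) := (Real.continuous_exp.comp φ.continuous).measurable
  have h5 : (wm μ fun x => Real.exp (φ x)).real univ =
      ∫ x, (1 : ℝ) ∂(wm μ fun x => Real.exp (φ x)) := by simp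
  rw [h5, integral_wm μ _ hm (fun x => (Real.exp_pos _).le),
    integral_wm μ _ hm (fun x => (Real.exp_pos _).le)]
  unfold avg
  simp only [mul_one]
  congr 1
  exact integral_congr_ae (Eventually.of_forall fun x => mul_comm _ _)

theorem stab (μ : Measure M) (D : Data M) (hD : D.IsSurf μ) (L : ℝ) (Φ : ℂ → M) (σ : M → M)
    (hM : Nonempty M)
    (hc : D.IsCyl μ L Φ σ) (φ0 ψ : C(M, ℝ)) (hψ : ∀ x, 0 ≤ ψ x) (G : Finset C(M, ℝ)) (ε : ℝ)
    (hε : 0 < ε) (C : ℕ) (δ : ℝ)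
    (hP : ∀ (u : ℕ → M → ℝ) (lam : ℕ → ℝ),
      SymBasis (D.conf fun x => Real.exp (φ0 x)) (wm μ fun x => Real.exp (φ0 x)) σ u lam →
      UD (ScalesX (ExcU (wm μ fun x => Real.exp (φ0 x)) G ε u) lam C) δ) (K0 : ℕ) :
    ∃ (K1 : ℕ) (τ0 : ℝ), 0 < τ0 ∧ ∀ τ : ℝ, 0 < τ → τ < τ0 → ∀ (u : ℕ → M → ℝ) (lam : ℕ → ℝ),
      SymBasis (D.conf fun x => Real.exp ((φ0 + τ • ψ) x))
        (wm μ fun x => Real.exp ((φ0 + τ • ψ) x)) σ u lam →
      ∃ K : ℕ, K0 ≤ K ∧ K ≤ K1 ∧ (1 - δ) * K ≤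
        ((ScalesX (ExcU (wm μ fun x => Real.exp ((φ0 + τ • ψ) x)) G (ε / 2) u) lam C ∩
          Iio K).ncard : ℝ) := by
  classical
  obtain ⟨hfin, hpos⟩ := tFin M μ D hD
  have hNZ : NeZero μ := ⟨by
    intro h0
    have h1 := hpos univ isOpen_univ univ_nonempty
    rw [h0] at h1
    simp at h1⟩
  obtain ⟨iF, aF, hSf, hiF, haF⟩ := tPackF M μ D hD hM
  obtain ⟨bF, hBF, hFF, -, hcmp, -⟩ := tFm M μ (HF D μ) iF aF hSf
  have : CompleteSpace (HF D μ) :=
    (Submodule.isClosed_topologicalClosure _).completeSpace_coe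
  by_contra hcon
  push Not at hcon
  have hcon' : ∀ n : ℕ, ∃ τ : ℝ, 0 < τ ∧ τ < 1 / ((n : ℝ) + 1) ∧ ∃ (u : ℕ → M → ℝ) (lam : ℕ → ℝ),
      SymBasis (D.conf fun x => Real.exp ((φ0 + τ • ψ) x))
        (wm μ fun x => Real.exp ((φ0 + τ • ψ) x)) σ u lam ∧
      ∀ K : ℕ, K0 ≤ K → K ≤ n →
        ((ScalesX (ExcU (wm μ fun x => Real.exp ((φ0 + τ • ψ) x)) G (ε / 2) u) lam C ∩
          Iio K).ncard : ℝ) < (1 - δ) * K := by
    intro n
    obtain ⟨τ, h1, h2, u, lam, h3, h4⟩ := hcon n (1 / ((n : ℝ) + 1)) (by positivity)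
    exact ⟨τ, h1, h2, u, lam, h3, h4⟩
  choose τ hτ0 hτ1 u lam hu hfail using hcon'
  set φ : ℕ → C(M, ℝ) := fun n => φ0 + τ n • ψ with hφd
  have hτt : Tendsto τ atTop (𝓝 0) := squeeze_zero (fun n => (hτ0 n).le) (fun n => (hτ1 n).le)
    tendsto_one_div_add_atTop_nhds_zero_nat
  have hφ : Tendsto φ atTop (𝓝 φ0) := by
    have h1 : Tendsto (fun n => φ0 + τ n • ψ) atTop (𝓝 (φ0 + (0 : ℝ) • ψ)) :=
      tendsto_const_nhds.add (hτt.smul_const ψ)
    rwa [zero_smul, add_zero] at h1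
  choose e heu hEg using fun n => tBr M μ D hD iF aF bF hSf hiF haF hBF hFF (φ n) (u n) (lam n)
    (hu n).1
  obtain ⟨θ, e0, E0, hθ, hE0, he0, hlt⟩ := cpt hSf hBF hFF hcmp φ φ0 hφ e lam hEg
  have hφθ : Tendsto (fun n => φ (θ n)) atTop (𝓝 φ0) := hφ.comp hθ.tendsto_atTop
  -- symmetry of the limits
  have hac : ∀ (w : C(M, ℝ)) (q : M → Prop), (∀ᵐ x ∂(wm μ fun x => Real.exp (w x)), q x) →
      ∀ᵐ x ∂μ, q x := by
    intro w q hq
    have h1 : μ ≪ wm μ fun x => Real.exp (w x) := by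
      refine withDensity_absolutelyContinuous' (Real.continuous_exp.comp
        w.continuous).measurable.ennreal_ofReal.aemeasurable ?_
      refine Eventually.of_forall fun x => ?_
      rw [ne_eq, ENNReal.ofReal_eq_zero, not_le]
      exact Real.exp_pos _
    exact h1 hq
  have hsymn : ∀ n j, Tσ hc (e n j).1.fst = (e n j).1.fst ∨ Tσ hc (e n j).1.fst = -(e n j).1.fst := by
    intro n j
    have h1 := heu n j
    rw [hiF] at h1
    have h2 : (fun x => ((e n j).1.fst : M → ℝ) (σ x)) =ᵐ[μ] fun x => u n j (σ x) :=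
      hc.mp.quasiMeasurePreserving.ae_eq_comp h1
    rcases (hu n).2 j with h3 | h3
    · left
      refine Lp.ext ?_
      filter_upwards [tσ_ae hc (e n j).1.fst, h1, h2, hac _ _ h3] with x a1 a2 a3 a4
      rw [a1, a3, a4, a2]
    · right
      refine Lp.ext ?_
      filter_upwards [tσ_ae hc (e n j).1.fst, h1, h2, hac _ _ h3, Lp.coeFn_neg (e n j).1.fst] with
        x a1 a2 a3 a4 a5
      rw [a1, a3, a4, a5, Pi.neg_apply, a2]
  have hTc : Continuous (Tσ hc) := by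
    have h1 : ∀ x y : Lp ℝ 2 μ, dist (Tσ hc x) (Tσ hc y) = dist x y := fun x y => by
      show dist ((Lp.compMeasurePreservingₗᵢ ℝ σ hc.mp) x) ((Lp.compMeasurePreservingₗᵢ ℝ σ hc.mp) y) = _
      exact (Lp.compMeasurePreservingₗᵢ ℝ σ hc.mp).dist_map x y
    exact (Isometry.of_dist_eq h1).continuous
  have hclosed : IsClosed {x : Lp ℝ 2 μ | Tσ hc x = x ∨ Tσ hc x = -x} :=
    (isClosed_eq hTc continuous_id).union (isClosed_eq hTc continuous_neg)
  have hsym0 : ∀ j, Tσ hc (e0 j).1.fst = (e0 j).1.fst ∨ Tσ hc (e0 j).1.fst = -(e0 j).1.fst := by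
    intro j
    have h1 : Tendsto (fun n => iF (e (θ n) j)) atTop (𝓝 (iF (e0 j))) :=
      (iF.continuous.tendsto _).comp (he0 j)
    have h2 := hclosed.mem_of_tendsto h1 (Eventually.of_forall fun n => by
      rw [hiF]
      exact hsymn (θ n) j)
    rw [hiF] at h2
    exact h2
  have hbasis : SymBasis (D.conf fun x => Real.exp (φ0 x)) (wm μ fun x => Real.exp (φ0 x)) σ
      (fun j => ((e0 j).1.fst : M → ℝ)) E0 := by
    refine ⟨basis_of_eg hD φ0 iF aF bF hiF haF hBF hFF hcmp e0 E0 hE0, fun j => ?_⟩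
    have hac' : ∀ q : M → Prop, (∀ᵐ x ∂μ, q x) → ∀ᵐ x ∂(wm μ fun x => Real.exp (φ0 x)), q x :=
      fun q hq => (withDensity_absolutelyContinuous μ _) hq
    rcases hsym0 j with h3 | h3
    · left
      refine hac' _ ?_
      have h1 := tσ_ae hc (e0 j).1.fst
      rw [h3] at h1
      filter_upwards [h1] with x hx
      rw [← hx]
    · right
      refine hac' _ ?_
      have h1 := tσ_ae hc (e0 j).1.fst
      rw [h3] at h1
      filter_upwards [h1, Lp.coeFn_neg (e0 j).1.fst] with x hx hx2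
      rw [← hx, hx2, Pi.neg_apply]
  obtain ⟨K, hKK, hK⟩ := ((hP _ _ hbasis).and_eventually (eventually_ge_atTop K0)).exists
  -- monotonicity of the eigenvalues
  have hmono : ∀ n j, lam n j ≤ E0 j := by
    intro n j
    have h1 : ∀ v, bF φ0 v v ≤ bF (φ n) v v := by
      intro v
      rw [bq hBF, bq hBF]
      refine integral_mono (int_int _ _) (int_int _ _) fun t => ?_
      refine mul_le_mul_of_nonneg_right ?_ (sq_nonneg _)
      refine Real.exp_le_exp.2 ?_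
      have h2 : φ n t = φ0 t + τ n * ψ t := rfl
      rw [h2]
      have := mul_nonneg (hτ0 n).le (hψ t)
      linarith
    have h2 := (Pool.Agent.Y592.QE.mon (HF D μ) aF (bF φ0) (bF (φ n)) (hFF _) (hFF _) 1 one_pos
      (fun v => by rw [one_mul]; exact h1 v) j).2
    rw [one_mul] at h2
    rw [← Pool.Agent.Y592.QE.mm (HF D μ) aF (bF (φ n)) (hFF _) (e n) (lam n) (hEg n) j,
      ← Pool.Agent.Y592.QE.mm (HF D μ) aF (bF φ0) (hFF _) e0 E0 hE0 j]
    exact h2
  obtain ⟨N, hN⟩ := (hE0.tt.eventually (eventually_gt_atTop ((4 : ℝ) ^ K))).exists_forall_of_atTop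
  -- the exceptional indices persist
  have hdev : ∀ (j : ℕ) (f : C(M, ℝ)), Tendsto (fun n => kap μ iF f (φ (θ n)) (e (θ n) j) -
      avg μ f (φ (θ n))) atTop (𝓝 (kap μ iF f φ0 (e0 j) - avg μ f φ0)) := fun j f =>
    (kap_tendsto f hφθ (he0 j)).sub (avg_tendsto f hφθ)
  have hex : ∀ j, ∀ᶠ n in atTop, j ∈ ExcU (wm μ fun x => Real.exp (φ0 x)) G ε
        (fun j => ((e0 j).1.fst : M → ℝ)) →
      j ∈ ExcU (wm μ fun x => Real.exp (φ (θ n) x)) G (ε / 2) (u (θ n)) := by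
    intro j
    by_cases hj : j ∈ ExcU (wm μ fun x => Real.exp (φ0 x)) G ε (fun j => ((e0 j).1.fst : M → ℝ))
    · obtain ⟨f, hf, hfe⟩ := hj
      have h1 : (i : HF D μ) → (iF i : M → ℝ) =ᵐ[μ] (i.1.fst : M → ℝ) := fun v => by rw [hiF]
      rw [← kap_eq (i := iF) f φ0 (e0 j) _ (h1 _), ← avg_eq f φ0] at hfe
      have h2 := (hdev j f).abs
      have h3 : ε / 2 < |kap μ iF f φ0 (e0 j) - avg μ f φ0| := by linarith
      filter_upwards [h2.eventually (lt_mem_nhds h3)] with n hn _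
      refine ⟨f, hf, ?_⟩
      rw [← kap_eq (i := iF) f (φ (θ n)) (e (θ n) j) _ (heu (θ n) j), ← avg_eq f (φ (θ n))]
      exact hn.le
    · exact Eventually.of_forall fun n h => absurd h hj
  have hex' : ∀ᶠ n in atTop, ∀ j ∈ Finset.range N,
      j ∈ ExcU (wm μ fun x => Real.exp (φ0 x)) G ε (fun j => ((e0 j).1.fst : M → ℝ)) →
      j ∈ ExcU (wm μ fun x => Real.exp (φ (θ n) x)) G (ε / 2) (u (θ n)) := by
    rw [Filter.eventually_all_finset]
    exact fun j _ => hex j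
  obtain ⟨n, hn1, hn2⟩ := (hex'.and (eventually_ge_atTop K)).exists
  have hfa := hfail (θ n) K hK (hn2.trans (hθ.id_le n))
  refine absurd hfa (not_lt.2 (hKK.trans ?_))
  have hsub : ScalesX (ExcU (wm μ fun x => Real.exp (φ0 x)) G ε (fun j => ((e0 j).1.fst : M → ℝ)))
      E0 C ∩ Iio K ⊆ ScalesX (ExcU (wm μ fun x => Real.exp ((φ0 + τ (θ n) • ψ) x)) G (ε / 2)
        (u (θ n))) (lam (θ n)) C ∩ Iio K := by
    intro k hk
    refine ⟨?_, hk.2⟩
    have h1 : C * 2 ^ k < {j | j ∈ ExcU (wm μ fun x => Real.exp (φ0 x)) G ε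
      (fun j => ((e0 j).1.fst : M → ℝ)) ∧ E0 j ≤ 4 ^ k}.ncard := hk.1
    have hkK : k < K := hk.2
    refine lt_of_lt_of_le h1 (ncard_le_ncard ?_ ?_)
    · intro j hj
      have h2 : (4 : ℝ) ^ k ≤ 4 ^ K := pow_le_pow_right₀ (by norm_num) hkK.le
      have h3 : j < N := by
        by_contra hjN
        have h4 := hN j (not_lt.1 hjN)
        have h5 : E0 j ≤ 4 ^ k := hj.2
        linarith
      exact ⟨hn1 j (Finset.mem_range.2 h3) hj.1, (hmono (θ n) j).trans hj.2⟩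
    · obtain ⟨j0, hj0⟩ :=
        ((hEg (θ n)).tt.eventually (eventually_gt_atTop ((4 : ℝ) ^ k))).exists_forall_of_atTop
      refine (Set.finite_Iio j0).subset fun j hj => ?_
      by_contra hcon
      have h1 := hj0 j (not_lt.1 hcon)
      have h2 : lam (θ n) j ≤ 4 ^ k := hj.2
      linarith
  exact_mod_cast ncard_le_ncard hsub ((finite_Iio K).subset inter_subset_right)

end

end Pool.Agent.H240.NX
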