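import Pool.Graph.R_seed8.Y264.QR.All

/-!
# Compactness of eigenbases
-/

set_option autoImplicit false
set_option linter.unusedSectionVars false

open Set Filter Topology MeasureTheory
open scoped Real ContDiff

noncomputable section

namespace Pool.Agent.H240.NX

open Pool.Agent.Y262.QE Pool.Agent.Y264.QR

section

variable {M : Type} [MetricSpace M] [CompactSpace M] [MeasurableSpace M] [BorelSpace M]
  {μ : Measure M} [IsFiniteMeasure μ]

theorem lp_nsq (x : Lp ℝ 2 μ) : ‖x‖ ^ 2 = ∫ t, (x t) ^ 2 ∂μ := by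
  rw [← real_inner_self_eq_norm_sq, L2.inner_def]
  refine integral_congr_ae (Eventually.of_forall fun x => ?_)
  simp only [RCLike.inner_apply, conj_trivial]
  ring

theorem int_bd (w : C(M, ℝ)) (x : Lp ℝ 2 μ) : |∫ t, w t * (x t) ^ 2 ∂μ| ≤ ‖w‖ * ‖x‖ ^ 2 := by
  rw [lp_nsq, ← integral_const_mul]
  refine (abs_integral_le_integral_abs).trans (integral_mono_of_nonneg
    (Eventually.of_forall fun t => abs_nonneg _) ((Lp.memLp x).integrable_sq.const_mul _)
    (Eventually.of_forall fun t => ?_))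
  show |w t * (x t) ^ 2| ≤ ‖w‖ * (x t) ^ 2
  rw [abs_mul, abs_of_nonneg (sq_nonneg (x t))]
  exact mul_le_mul_of_nonneg_right (w.norm_coe_le_norm t) (sq_nonneg _)

theorem int_int (w : C(M, ℝ)) (x : Lp ℝ 2 μ) : Integrable (fun t => w t * (x t) ^ 2) μ :=
  (Lp.memLp x).integrable_sq.bdd_mul (c := ‖w‖) w.continuous.aestronglyMeasurable
    (Eventually.of_forall fun t => w.norm_coe_le_norm t)

theorem q_tendsto {ι : Type*} {l : Filter ι} {w : ι → C(M, ℝ)} {w0 : C(M, ℝ)}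
    (hw : Tendsto w l (𝓝 w0)) {x : ι → Lp ℝ 2 μ} {x0 : Lp ℝ 2 μ} (hx : Tendsto x l (𝓝 x0)) :
    Tendsto (fun n => ∫ t, w n t * (x n t) ^ 2 ∂μ) l (𝓝 (∫ t, w0 t * (x0 t) ^ 2 ∂μ)) := by
  obtain ⟨b, hb⟩ := Pool.Agent.Y469.QE.mul M μ (fun t => w0 t) w0.continuous.measurable ‖w0‖
    (fun t => w0.norm_coe_le_norm t)
  have h1 : Tendsto (fun n => b (x n) (x n)) l (𝓝 (b x0 x0)) := by
    have hc : Continuous fun y : Lp ℝ 2 μ => b y y := by fun_prop
    exact (hc.tendsto x0).comp hx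
  have h2 : Tendsto (fun n => ∫ t, (w n - w0) t * (x n t) ^ 2 ∂μ) l (𝓝 0) := by
    have h3 : Tendsto (fun n => ‖w n - w0‖ * ‖x n‖ ^ 2) l (𝓝 0) := by
      have h4 : Tendsto (fun n => ‖w n - w0‖) l (𝓝 0) := tendsto_iff_norm_sub_tendsto_zero.1 hw
      simpa using h4.mul (hx.norm.pow 2)
    exact squeeze_zero_norm (fun n => int_bd _ _) h3
  have h3 := h1.add h2
  rw [add_zero, hb] at h3
  have e1 : (fun t => w0 t * (x0 t * x0 t)) = fun t => w0 t * (x0 t) ^ 2 := by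
    funext t; ring
  rw [e1] at h3
  refine h3.congr fun n => ?_
  rw [hb]
  have e2 : (fun t => w0 t * (x n t * x n t)) = fun t => w0 t * (x n t) ^ 2 := by
    funext t; ring
  rw [e2, ← integral_add (int_int _ _) (int_int _ _)]
  refine integral_congr_ae (Eventually.of_forall fun t => ?_)
  simp only [ContinuousMap.sub_apply]
  ring

/-- the exponential of a continuous function -/
def ex (φ : C(M, ℝ)) : C(M, ℝ) := ⟨fun x => Real.exp (φ x), Real.continuous_exp.comp φ.continuous⟩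

theorem ex_cont : Continuous (ex : C(M, ℝ) → C(M, ℝ)) := by
  have : (ex : C(M, ℝ) → C(M, ℝ)) = fun φ => (⟨Real.exp, Real.continuous_exp⟩ : C(ℝ, ℝ)).comp φ := by
    funext φ
    ext x
    rfl
  rw [this]
  fun_prop

variable {H : Type} [NormedAddCommGroup H] [InnerProductSpace ℝ H] {i : H →L[ℝ] Lp ℝ 2 μ}
  {a : H →L[ℝ] H →L[ℝ] ℝ} {b : C(M, ℝ) → H →L[ℝ] H →L[ℝ] ℝ}

theorem bq (hB : IsB μ i b) (φ : C(M, ℝ)) (v : H) : b φ v v = ∫ t, ex φ t * (i v t) ^ 2 ∂μ := by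
  rw [hB]
  refine integral_congr_ae (Eventually.of_forall fun t => ?_)
  show Real.exp (φ t) * _ = Real.exp (φ t) * _
  ring

theorem b_tendsto_q (hB : IsB μ i b) {ι : Type*} {l : Filter ι} {φ : ι → C(M, ℝ)} {φ0 : C(M, ℝ)}
    (hφ : Tendsto φ l (𝓝 φ0)) {v : ι → H} {v0 : H} (hv : Tendsto v l (𝓝 v0)) :
    Tendsto (fun n => b (φ n) (v n) (v n)) l (𝓝 (b φ0 v0 v0)) := by
  have h1 := q_tendsto (μ := μ) (ex_cont.tendsto φ0 |>.comp hφ) ((i.continuous.tendsto v0).comp hv)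
  rw [bq hB]
  refine h1.congr fun n => ?_
  rw [bq hB]
  rfl

theorem b_tendsto (hB : IsB μ i b) (hF : ∀ φ, Fm a (b φ)) {ι : Type*} {l : Filter ι}
    {φ : ι → C(M, ℝ)} {φ0 : C(M, ℝ)}
    (hφ : Tendsto φ l (𝓝 φ0)) {u v : ι → H} {u0 v0 : H} (hu : Tendsto u l (𝓝 u0))
    (hv : Tendsto v l (𝓝 v0)) :
    Tendsto (fun n => b (φ n) (u n) (v n)) l (𝓝 (b φ0 u0 v0)) := by
  have pol : ∀ (ψ : C(M, ℝ)) (x y : H), b ψ x y = (b ψ (x + y) (x + y) - b ψ (x - y) (x - y)) / 4 := by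
    intro ψ x y
    simp only [map_add, map_sub, add_apply, sub_apply]
    rw [(hF ψ).sb y x]
    ring
  have h1 := b_tendsto_q hB hφ (hu.add hv)
  have h2 := b_tendsto_q hB hφ (hu.sub hv)
  rw [pol φ0 u0 v0]
  refine ((h1.sub h2).div_const 4).congr fun n => ?_
  rw [pol (φ n) (u n) (v n)]

theorem kap_tendsto (f : C(M, ℝ)) {ι : Type*} {l : Filter ι}
    {φ : ι → C(M, ℝ)} {φ0 : C(M, ℝ)}
    (hφ : Tendsto φ l (𝓝 φ0)) {v : ι → H} {v0 : H}
    (hv : Tendsto v l (𝓝 v0)) :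
    Tendsto (fun n => kap μ i f (φ n) (v n)) l (𝓝 (kap μ i f φ0 v0)) := by
  have h0 : Tendsto (fun n => f * ex (φ n)) l (𝓝 (f * ex φ0)) :=
    tendsto_const_nhds.mul (ex_cont.tendsto φ0 |>.comp hφ)
  have h1 := q_tendsto (μ := μ) h0 ((i.continuous.tendsto v0).comp hv)
  have e : ∀ (ψ : C(M, ℝ)) (x : H), kap μ i f ψ x = ∫ t, (f * ex ψ) t * (i x t) ^ 2 ∂μ := by
    intro ψ x
    unfold kap
    refine integral_congr_ae (Eventually.of_forall fun t => ?_)
    show f t * (Real.exp (ψ t) * _) = f t * Real.exp (ψ t) * _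
    ring
  rw [e]
  refine h1.congr fun n => ?_
  rw [e]
  rfl

theorem avg_tendsto [NeZero μ] (f : C(M, ℝ)) {ι : Type*} {l : Filter ι}
    {φ : ι → C(M, ℝ)} {φ0 : C(M, ℝ)} (hφ : Tendsto φ l (𝓝 φ0)) :
    Tendsto (fun n => avg μ f (φ n)) l (𝓝 (avg μ f φ0)) := by
  have hint : ∀ g : C(M, ℝ), Integrable g μ := fun g =>
    g.continuous.integrable_of_hasCompactSupport (HasCompactSupport.of_compactSpace g)
  have key : ∀ {w : ι → C(M, ℝ)} {w0 : C(M, ℝ)}, Tendsto w l (𝓝 w0) →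
      Tendsto (fun n => ∫ t, w n t ∂μ) l (𝓝 (∫ t, w0 t ∂μ)) := by
    intro w w0 hw
    rw [tendsto_iff_norm_sub_tendsto_zero]
    have h3 : Tendsto (fun n => ‖w n - w0‖ * μ.real univ) l (𝓝 0) := by
      have h4 : Tendsto (fun n => ‖w n - w0‖) l (𝓝 0) := tendsto_iff_norm_sub_tendsto_zero.1 hw
      simpa using h4.mul_const (μ.real univ)
    refine squeeze_zero (fun n => norm_nonneg _) (fun n => ?_) h3
    rw [← integral_sub (hint _) (hint _)]
    refine (norm_integral_le_of_norm_le_const (C := ‖w n - w0‖) (Eventually.of_forall fun t => ?_))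
    exact (w n - w0).norm_coe_le_norm t
  have h1 := key (w := fun n => f * ex (φ n)) (w0 := f * ex φ0)
    (tendsto_const_nhds.mul (ex_cont.tendsto φ0 |>.comp hφ))
  have h2 := key (w := fun n => ex (φ n)) (w0 := ex φ0) (ex_cont.tendsto φ0 |>.comp hφ)
  have h3 : ∫ t, ex φ0 t ∂μ ≠ 0 := by
    have h4 : 0 < ∫ t, ex φ0 t ∂μ := by
      rw [integral_pos_iff_support_of_nonneg
        (fun x => (show (0 : ℝ) ≤ ex φ0 x from (Real.exp_pos _).le)) (hint _)]
      have e : Function.support (ex φ0 : M → ℝ) = univ := by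
        ext x
        simp only [Function.mem_support, mem_univ, iff_true]
        exact (Real.exp_pos _).ne'
      rw [e]
      exact (NeZero.ne (μ univ)).bot_lt
    exact h4.ne'
  exact h1.div h2 h3

end

end Pool.Agent.H240.NX
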