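import Pool.Graph.R_seed8.Y262.NU.All0
import Pool.Agent.H240.QX.Final
import Pool.Agent.H240.NX.Stab

/-!
# Negatively curved surfaces: no uniform bound for the number of exceptional eigenfunctions
-/

set_option autoImplicit false

open Set Filter Topology MeasureTheory
open scoped ContDiff ComplexConjugate Real

noncomputable section

namespace Pool.Agent.H240.NX

open Pool.Agent.Y262.EG Pool.Agent.Y262.EX Pool.Agent.Y262.EL Pool.Agent.H240.QX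

/-- The number of exceptional eigenfunctions is not bounded uniformly by a multiple of the square root
of the eigenvalue on surfaces of negative curvature. -/
def ConclN : Prop :=
  ∃ (M P : Type) (_ : MetricSpace M) (_ : CompactSpace M) (_ : ConnectedSpace M)
    (_ : MeasurableSpace M) (_ : BorelSpace M) (_ : MetricSpace P) (_ : CompactSpace P)
    (Ω : Set ℂ) (φ : ℂ → ℝ) (pr : ℂ → M) (q : Y → P) (ψ : M → ℝ),
    IsUT Ω φ pr q ∧ (∀ z ∈ Ω, curv φ z ≤ 0) ∧ Continuous ψ ∧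
    ContDiffOn ℝ ∞ (fun z => ψ (pr z)) Ω ∧
    (∃ τ1 : ℝ, 0 < τ1 ∧ ∀ τ : ℝ, 0 < τ → τ < τ1 → ∀ z ∈ Ω,
      curv (fun z => φ z + τ * ψ (pr z)) z < 0) ∧
    ∀ (C : ℕ) (δ : ℝ), 0 < δ → ∃ (G : Finset C(M, ℝ)) (ε : ℝ), 0 < ε ∧ ∀ K0 : ℕ,
      ∃ (K1 : ℕ) (τ0 : ℝ), 0 < τ0 ∧ ∀ τ : ℝ, 0 < τ → τ < τ0 →
        IsUT Ω (fun z => φ z + τ * ψ (pr z)) pr q ∧ ∃ (μ : Measure M) (u : ℕ → M → ℝ)
        (lam : ℕ → ℝ), IsArea Ω (fun z => φ z + τ * ψ (pr z)) pr μ ∧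
        (∀ j, IsEf Ω (fun z => φ z + τ * ψ (pr z)) pr (lam j) (u j)) ∧ Monotone lam ∧
        (∀ i j, ∫ x, u i x * u j x ∂μ = if i = j then 1 else 0) ∧
        (∀ f : M → ℝ, MemLp f 2 μ → (∀ j, ∫ x, f x * u j x ∂μ = 0) → f =ᵐ[μ] 0) ∧
        Tendsto lam atTop atTop ∧ ∃ K : ℕ, K0 ≤ K ∧ K ≤ K1 ∧
          (1 - δ) * K ≤ ((ScalesX (ExcU μ G ε u) lam C ∩ Iio K).ncard : ℝ)

open Pool.Agent.Y262.QE in
theorem finalN : ConclN := by
  obtain ⟨g, c1, C, hP⟩ := tProf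
  have hA : Act Gq Om ac := tAct
  obtain ⟨hI, hconj⟩ := tPhi2 g c1 C hP
  obtain ⟨M, iM, cM, pr, hpr⟩ := Pool.Agent.Y338.EX.qM Pool.Agent.Y749.EX.top Gq Om ac hA
  obtain ⟨P, iP, cP, q, hq⟩ := Pool.Agent.Y848.EX.qP Pool.Agent.Y749.EX.top Gq Om ac hA
    (fun γ z hz => (hI.2 γ z hz).1)
  let _ : MeasurableSpace M := borel M
  have _ : BorelSpace M := ⟨rfl⟩
  have hUT : IsUT Om (phi g c1) pr q :=
    Pool.Agent.Y145.EX.qU Gq Om ac (phi g c1) M P pr q hA hI hpr hq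
  obtain ⟨C', hC⟩ := tClsE g c1 C hP M P pr q hpr hUT
  obtain ⟨σ, hσ⟩ := Pool.Agent.Y658.EX.sigEx Gq M Om ac (phi g c1) pr hpr tConj.1 hconj
    (fun γ => tConj.2 γ)
  obtain ⟨δ'', h, hC2, hhc, hh0, hhσ, hhs, hhz, hhne⟩ :=
    Pool.Agent.Y838.EX.hex M P Om (phi g c1) pr q _ _ _ _ _ g σ hUT hC hσ
  obtain ⟨μ, hμ⟩ :=
    Pool.Agent.Y80.EX.areaEx Pool.Agent.Y749.EX.etale M P Om (phi g c1) pr q hUT
  obtain ⟨D, Φ, hS, hComp, hCyl, hΦ⟩ :=
    tData M P Om (phi g c1) pr q μ _ _ _ _ _ g σ hUT hC2 hμ hσ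
  have hzz : ∀ z ∈ Strip _, h (Φ z) = 0 := (fun z hz => by
      rw [hΦ z hz]
      refine hhz z ⟨?_, ?_⟩
      · have := hC2.posδ; have := hC2.ltδ; have := hz.1; linarith
      · have := hC2.posδ; have := hC2.ltδ; have := hz.2; linarith)
  have hmain2 := surf2 μ D hS _ Φ σ hCyl h hhc hh0 hhσ hzz hhne
  obtain ⟨s0, hs0, hfam⟩ := tFam M P Om (phi g c1) pr q _ _ _ _ _ g hUT hC2 h hhs hhz
  have hneM : Nonempty M := by
    obtain ⟨x, _⟩ := hhne
    exact ⟨x⟩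
  have hex : ∃ s : ℝ, |s| < s0 ∧
      ∀ (C : ℕ) (δ : ℝ), 0 < δ → ∃ (G : Finset C(M, ℝ)) (ε : ℝ), 0 < ε ∧
      ∀ (u : ℕ → M → ℝ) (lam : ℕ → ℝ),
      SymBasis (D.conf fun x => Real.exp (s * h x)) (wm μ fun x => Real.exp (s * h x)) σ u lam →
      UD (ScalesX (ExcU (wm μ fun x => Real.exp (s * h x)) G ε u) lam C) δ := by
    by_contra hcon
    have hnull : volume {s : ℝ | |s| < s0} = 0 := by
      refine measure_mono_null ?_ hmain2
      intro s hs hgood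
      exact hcon ⟨s, hs, hgood⟩
    have hpos : 0 < volume {s : ℝ | |s| < s0} := by
      refine IsOpen.measure_pos volume ?_ ⟨0, by simpa using hs0⟩
      exact isOpen_lt continuous_abs continuous_const
    exact absurd hnull hpos.ne'
  obtain ⟨s, hs, hgood2⟩ := hex
  obtain ⟨hUTs1, hComps⟩ := tUTs M P Om (phi g c1) pr q hUT h hhs s
  obtain ⟨C2, hCs⟩ := hfam s hs
  have hconn : ConnectedSpace M := { toPreconnectedSpace := ⟨hpr.conn⟩, toNonempty := hneM }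
  have hσs : Rfl Om (fun z => phi g c1 z + s / 2 * h (pr z)) pr σ := by
    refine ⟨hσ.maps, fun z hz => ?_, hσ.rfl'⟩
    have h1 := hσ.inv z hz
    have h2 := hhσ (pr z)
    rw [hσ.rfl' z hz] at h2
    simp only [h1, h2]
  obtain ⟨ψ, hψc, hψ0, hψσ, hψs, hψneg⟩ := Pool.Agent.Y262.NU.tPsi M P Om
    (fun z => phi g c1 z + s / 2 * h (pr z)) pr q _ _ _ _ _ g σ hUTs1 hCs hσs
  obtain ⟨N, ε1, hN, hε1, hneg⟩ := hψneg (fun _ => 0) continuous_const contDiffOn_const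
  refine ⟨M, P, iM, cM, hconn, inferInstance, inferInstance, iP, cP, Om,
    fun z => phi g c1 z + s / 2 * h (pr z), pr, q, ψ, hUTs1, hCs.neg, hψc, hψs,
    ⟨ε1, hε1, fun τ hτ hτ1 z hz => ?_⟩, fun C δ hδ => ?_⟩
  · have h1 := hneg 0 τ le_rfl hε1 hτ hτ1 z hz
    have e1 : (fun z => phi g c1 z + s / 2 * h (pr z) + 0 * (0 + N * ψ (pr z)) + τ * ψ (pr z)) =
        fun z => phi g c1 z + s / 2 * h (pr z) + τ * ψ (pr z) := by
      funext z
      ring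
    rw [e1] at h1
    exact h1
  obtain ⟨G, ε, hε, hG⟩ := hgood2 C δ hδ
  set φ0 : C(M, ℝ) := s • (⟨h, hhc⟩ : C(M, ℝ)) with hφ0
  set ψC : C(M, ℝ) := ⟨ψ, hψc⟩ with hψC
  refine ⟨G, ε / 2, by positivity, fun K0 => ?_⟩
  obtain ⟨K1, τ0, hτ0, hst⟩ := stab μ D hS _ Φ σ hneM hCyl φ0 ψC hψ0 G ε hε C δ
    (fun u lam hu => hG u lam hu) K0
  refine ⟨K1, τ0 / 2, by positivity, fun τ hτ hτ1 => ?_⟩
  -- the basis for the perturbed metric
  obtain ⟨u, lam, hu, hlt⟩ := sym_ex hS hneM hCyl (φ0 + (2 * τ) • ψC) (fun x => by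
    show s * h (σ x) + 2 * τ * ψ (σ x) = s * h x + 2 * τ * ψ x
    rw [hhσ, hψσ])
  obtain ⟨K, hK0, hK1, hK⟩ := hst (2 * τ) (by positivity) (by linarith) u lam hu
  set h' : M → ℝ := fun x => s * h x + 2 * τ * ψ x with hh'
  have hh'c : Continuous h' := (continuous_const.mul hhc).add (continuous_const.mul hψc)
  have hh's : ContDiffOn ℝ ∞ (fun z => h' (pr z)) Om :=
    (contDiffOn_const.mul hhs).add (contDiffOn_const.mul hψs)
  have hfun : (fun z => phi g c1 z + 1 / 2 * h' (pr z)) =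
      fun z => phi g c1 z + s / 2 * h (pr z) + τ * ψ (pr z) := by
    funext z
    simp only [hh']
    ring
  obtain ⟨hUT1, hComp1⟩ := tUTs M P Om (phi g c1) pr q hUT h' hh's 1
  have hAr1 := (tCVM M P Om (phi g c1) pr q μ hUT hμ).2.2.2 h' hh'c hh's 1
  rw [hfun] at hUT1 hAr1
  have hW : (fun x => Real.exp (1 * h' x)) = fun x => Real.exp ((φ0 + (2 * τ) • ψC) x) := by
    funext x
    show Real.exp (1 * (s * h x + 2 * τ * ψ x)) = Real.exp (s * h x + 2 * τ * ψ x)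
    rw [one_mul]
  have hComp2 := hComp1 D hComp
  rw [hfun, hW] at hComp2
  rw [hW] at hAr1
  set W : M → ℝ := fun x => Real.exp ((φ0 + (2 * τ) • ψC) x) with hWd
  have hWc : Continuous W := Real.continuous_exp.comp (φ0 + (2 * τ) • ψC).continuous
  have hWp : ∀ x, 0 < W x := fun x => Real.exp_pos _
  have hSW := (tConf M μ D hS W hWc hWp).1
  have hv : ∀ j, ∃ v : M → ℝ, (∀ᵐ x ∂(wm μ W), u j x = v x) ∧
      ContDiffOn ℝ ∞ (fun z => v (pr z)) Om ∧ ∀ z ∈ Om,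
        -(Real.exp (-2 * (phi g c1 z + s / 2 * h (pr z) + τ * ψ (pr z))) *
          lap (fun z => v (pr z)) z) = lam j * v (pr z) := fun j =>
    tEll M P Om _ pr q (D.conf W) (wm μ W) hUT1 hSW hComp2 hAr1 (lam j) (u j) (hu.1.eig j)
  choose v hv1 hv2 hv3 using hv
  refine ⟨hUT1, wm μ W, v, lam, hAr1, fun j => ⟨hv2 j, hv3 j⟩, hu.1.mono, ?_, ?_, hlt, K, hK0, hK1,
    ?_⟩
  · intro k l
    rw [← hu.1.orth k l]
    refine integral_congr_ae ?_
    filter_upwards [hv1 k, hv1 l] with x hx hx'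
    rw [hx, hx']
  · intro f hf hfv
    refine hu.1.total f hf fun j => ?_
    rw [← hfv j]
    refine integral_congr_ae ?_
    filter_upwards [hv1 j] with x hx
    rw [hx]
  · have h2 : ExcU (wm μ W) G (ε / 2) v = ExcU (wm μ W) G (ε / 2) u := by
      unfold ExcU
      ext j
      have h3 : ∀ f : C(M, ℝ), ∫ x, f x * (v j x) ^ 2 ∂(wm μ W) =
          ∫ x, f x * (u j x) ^ 2 ∂(wm μ W) := by
        intro f
        refine integral_congr_ae ?_
        filter_upwards [hv1 j] with x hx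
        rw [hx]
      simp only [mem_ofPred_eq, h3]
    rw [h2]
    exact hK

end Pool.Agent.H240.NX
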