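import Pool.Agent.H240.NX.Cpt

/-!
# Limits of eigenbases of converging metrics
-/

set_option autoImplicit false
set_option linter.unusedSectionVars false

open Set Filter Topology MeasureTheory
open scoped Real ContDiff

noncomputable section

namespace Pool.Agent.H240.NX

open Pool.Agent.Y262.QE Pool.Agent.Y264.QR

section

variable {H : Type} [NormedAddCommGroup H] [InnerProductSpace ℝ H] {a b : H →L[ℝ] H →L[ℝ] ℝ}

/-- the Cauchy-Schwarz inequality -/
theorem cs (sb : ∀ u v, b u v = b v u) (nb : ∀ v, 0 ≤ b v v) (u v : H) :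
    (b u v) ^ 2 ≤ b u u * b v v := by
  have h : ∀ t : ℝ, 0 ≤ b v v * (t * t) + (2 * b u v) * t + b u u := by
    intro t
    have h1 := nb (u + t • v)
    simp only [map_add, map_smul, add_apply, smul_apply, smul_eq_mul] at h1
    rw [sb v u] at h1
    linarith
  have h2 := discrim_le_zero h
  rw [discrim] at h2
  nlinarith

/-- Bessel's inequality for both forms -/
theorem bes (hF : Fm a b) {e : ℕ → H} {E : ℕ → ℝ}
    (orth : ∀ i j, b (e i) (e j) = if i = j then 1 else 0) (eig : ∀ j v, a (e j) v = E j * b (e j) v)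
    (v : H) (S : Finset ℕ) : ∑ j ∈ S, (b v (e j)) ^ 2 ≤ b v v ∧
      ∑ j ∈ S, E j * (b v (e j)) ^ 2 ≤ a v v := by
  classical
  set w := ∑ j ∈ S, b v (e j) • e j with hw
  have e1 : ∀ x, b x w = ∑ j ∈ S, b v (e j) * b x (e j) := by
    intro x
    simp only [hw, map_sum, map_smul, smul_eq_mul]
  have e2 : ∀ k ∈ S, b (e k) w = b v (e k) := by
    intro k hk
    rw [e1]
    simp only [orth, mul_ite, mul_one, mul_zero]
    rw [Finset.sum_ite_eq S k, if_pos hk]
  have e3 : b w w = ∑ j ∈ S, (b v (e j)) ^ 2 := by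
    rw [e1]
    refine Finset.sum_congr rfl fun k hk => ?_
    rw [hF.sb w, e2 k hk, sq]
  have e4 : b v w = ∑ j ∈ S, (b v (e j)) ^ 2 := by
    rw [e1]
    exact Finset.sum_congr rfl fun k _ => by rw [sq]
  have a1 : ∀ x, a x w = ∑ j ∈ S, b v (e j) * (E j * b x (e j)) := by
    intro x
    simp only [hw, map_sum, map_smul, smul_eq_mul]
    refine Finset.sum_congr rfl fun k _ => ?_
    rw [hF.sa x, eig, hF.sb x]
  have a3 : a w w = ∑ j ∈ S, E j * (b v (e j)) ^ 2 := by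
    rw [a1]
    refine Finset.sum_congr rfl fun k hk => ?_
    rw [hF.sb w, e2 k hk]
    ring
  have a4 : a v w = ∑ j ∈ S, E j * (b v (e j)) ^ 2 := by
    rw [a1]
    exact Finset.sum_congr rfl fun k _ => by ring
  have h1 := hF.nb (v - w)
  have h2 := hF.na (v - w)
  simp only [map_sub, sub_apply] at h1 h2
  rw [hF.sb w v, e3, e4] at h1
  rw [hF.sa w v, a3, a4] at h2
  constructor <;> linarith

/-- the partial sums of Parseval's identity -/
theorem prt (hF : Fm a b) {e : ℕ → H} {E : ℕ → ℝ} (hE : Eg a b e E) (v : H) (N : ℕ)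
    (hN : 0 < E N) : b v v ≤ ∑ j ∈ Finset.range N, (b v (e j)) ^ 2 + a v v / E N := by
  have h1 := (hE.sum v).tendsto_sum_nat
  refine le_of_tendsto h1 ?_
  filter_upwards [eventually_ge_atTop N] with K hK
  have h2 : Finset.range K = Finset.range N ∪ Finset.Ico N K := by
    rw [Finset.range_eq_Ico, Finset.range_eq_Ico, Finset.Ico_union_Ico_eq_Ico (Nat.zero_le N) hK]
  have hd : Disjoint (Finset.range N) (Finset.Ico N K) := by
    rw [Finset.range_eq_Ico]
    exact Finset.Ico_disjoint_Ico_consecutive 0 N K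
  rw [h2, Finset.sum_union hd]
  have h3 := (bes hF hE.orth hE.eig v (Finset.Ico N K)).2
  have h4 : E N * ∑ j ∈ Finset.Ico N K, (b v (e j)) ^ 2 ≤ a v v := by
    refine le_trans ?_ h3
    rw [Finset.mul_sum]
    refine Finset.sum_le_sum fun j hj => mul_le_mul_of_nonneg_right (hE.mono ?_) (sq_nonneg _)
    exact (Finset.mem_Ico.1 hj).1
  have h5 : ∑ j ∈ Finset.Ico N K, (b v (e j)) ^ 2 ≤ a v v / E N := by
    rw [le_div_iff₀ hN]
    linarith
  linarith

end

section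

variable {M : Type} [MetricSpace M] [CompactSpace M] [MeasurableSpace M] [BorelSpace M]
  {μ : Measure M} [IsFiniteMeasure μ] {H : Type} [NormedAddCommGroup H] [InnerProductSpace ℝ H]
  [CompleteSpace H] {i : H →L[ℝ] Lp ℝ 2 μ}
  {a : H →L[ℝ] H →L[ℝ] ℝ} {b : C(M, ℝ) → H →L[ℝ] H →L[ℝ] ℝ}

theorem cpt (hS : Sf μ i a) (hB : IsB μ i b) (hF : ∀ φ, Fm a (b φ))
    (hexp : ∀ (φ ψ : C(M, ℝ)) (v : H), b φ v v ≤ Real.exp ‖φ - ψ‖ * b ψ v v)
    (φ : ℕ → C(M, ℝ)) (φ0 : C(M, ℝ)) (hφ : Tendsto φ atTop (𝓝 φ0)) (e : ℕ → ℕ → H)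
    (E : ℕ → ℕ → ℝ) (hE : ∀ n, Eg a (b (φ n)) (e n) (E n)) :
    ∃ (θ : ℕ → ℕ) (e0 : ℕ → H) (E0 : ℕ → ℝ), StrictMono θ ∧ Eg a (b φ0) e0 E0 ∧
      (∀ j, Tendsto (fun n => e (θ n) j) atTop (𝓝 (e0 j))) ∧
      ∀ j, Tendsto (fun n => E n j) atTop (𝓝 (E0 j)) := by
  classical
  obtain ⟨l1, l2, l3, l4, l5⟩ := tLip M μ H a b hF hexp
  have hmm : ∀ n j, E n j = Ev a (b (φ n)) j := fun n j =>
    (Pool.Agent.Y592.QE.mm H a (b (φ n)) (hF _) (e n) (E n) (hE n) j).symm
  set E0 : ℕ → ℝ := fun j => Ev a (b φ0) j with hE0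
  have hEt : ∀ j, Tendsto (fun n => E n j) atTop (𝓝 (E0 j)) := by
    intro j
    have h1 := ((l4 j).tendsto φ0).comp hφ
    refine h1.congr fun n => ?_
    rw [hmm]
    rfl
  -- bounds
  have hb0 : ∀ v : H, b 0 v v = ‖i v‖ ^ 2 := by
    intro v
    rw [hB, lp_nsq]
    refine integral_congr_ae (Eventually.of_forall fun t => ?_)
    show Real.exp 0 * _ = _
    rw [Real.exp_zero]
    ring
  obtain ⟨R, hR⟩ : ∃ R : ℝ, ∀ n, ‖φ n‖ ≤ R := by
    obtain ⟨R, hR⟩ := hφ.norm.bddAbove_range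
    exact ⟨R, fun n => hR ⟨n, rfl⟩⟩
  have hin : ∀ n (v : H), ‖i v‖ ^ 2 ≤ Real.exp R * b (φ n) v v := by
    intro n v
    rw [← hb0]
    refine (hexp 0 (φ n) v).trans (mul_le_mul_of_nonneg_right (Real.exp_le_exp.2 ?_) ((hF _).nb v))
    rw [zero_sub, norm_neg]
    exact hR n
  have hni : ∀ n (v : H), b (φ n) v v ≤ Real.exp R * ‖i v‖ ^ 2 := by
    intro n v
    rw [← hb0]
    refine (hexp (φ n) 0 v).trans (mul_le_mul_of_nonneg_right (Real.exp_le_exp.2 ?_) ((hF _).nb v))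
    rw [sub_zero]
    exact hR n
  have hEn : ∀ j, ∃ A : ℝ, 0 ≤ A ∧ ∀ n, E n j ≤ A := by
    intro j
    obtain ⟨A, hA⟩ := (hEt j).bddAbove_range
    exact ⟨A, ((l1 _ _).trans_eq (hmm 0 j).symm).trans (hA ⟨0, rfl⟩), fun n => hA ⟨n, rfl⟩⟩
  choose A hA0 hA using hEn
  have hE0n : ∀ n j, 0 ≤ E n j := fun n j => (l1 _ _).trans_eq (hmm n j).symm
  have hae : ∀ n j, a (e n j) (e n j) = E n j := by
    intro n j
    rw [(hE n).eig, (hE n).orth, if_pos rfl, mul_one]
  have hbe : ∀ n j, b (φ n) (e n j) (e n j) = 1 := by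
    intro n j
    rw [(hE n).orth, if_pos rfl]
  have hnorm : ∀ n j, ‖e n j‖ ^ 2 ≤ A j + Real.exp R := by
    intro n j
    rw [hS.nm, hae]
    have h1 := hin n (e n j)
    rw [hbe, mul_one] at h1
    linarith [hA j n]
  -- functionals
  obtain ⟨Cw, hCw⟩ := hS.wy
  have hwy : ∀ k : ℕ, ∃ (N : ℕ) (l : Fin N → H →L[ℝ] ℝ), ∀ v,
      ‖i v‖ ^ 2 ≤ 1 / ((k : ℝ) + 1) * a v v + ∑ q, (l q v) ^ 2 := by
    intro k
    obtain ⟨N, l, -, h2⟩ := hCw (1 / ((k : ℝ) + 1)) (by positivity) (by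
      rw [div_le_one (by positivity)]
      have : (0 : ℝ) ≤ k := Nat.cast_nonneg k
      linarith)
    exact ⟨N, l, h2⟩
  choose N l hl using hwy
  let T := ℕ × (Σ k : ℕ, Fin (N k))
  set x : ℕ → T → ℝ := fun n t => l t.2.1 t.2.2 (e n t.1) with hx
  set Bd : T → ℝ := fun t => ‖l t.2.1 t.2.2‖ * Real.sqrt (A t.1 + Real.exp R) with hBd
  have hxK : ∀ n, x n ∈ Set.pi univ fun t => Icc (-(Bd t)) (Bd t) := by
    intro n t _
    refine abs_le.1 ?_
    calc |x n t| ≤ ‖l t.2.1 t.2.2‖ * ‖e n t.1‖ := (l t.2.1 t.2.2).le_opNorm _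
      _ ≤ ‖l t.2.1 t.2.2‖ * Real.sqrt (A t.1 + Real.exp R) :=
        mul_le_mul_of_nonneg_left (Real.le_sqrt_of_sq_le (hnorm n t.1)) (norm_nonneg _)
  have hcomp : IsCompact (Set.pi univ fun t : T => Icc (-(Bd t)) (Bd t)) :=
    isCompact_univ_pi fun t => isCompact_Icc
  obtain ⟨x0, -, θ, hθ, hθx⟩ := hcomp.tendsto_subseq hxK
  have hxc : ∀ t, CauchySeq fun n => x (θ n) t := by
    intro t
    have h1 : Tendsto (fun n => x (θ n) t) atTop (𝓝 (x0 t)) := (tendsto_pi_nhds.1 hθx) t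
    exact h1.cauchySeq
  have hcau : ∀ j, CauchySeq fun n => e (θ n) j := by
    intro j
    -- the inclusion
    have h1 : ∀ η : ℝ, 0 < η → ∃ K0 : ℕ, ∀ m ≥ K0, ∀ n ≥ K0,
        ‖i (e (θ m) j - e (θ n) j)‖ ^ 2 < η := by
      intro η hη
      obtain ⟨k, hk⟩ := exists_nat_gt (8 * A j / η)
      have hk' : 1 / ((k : ℝ) + 1) * (4 * A j) < η / 2 := by
        have h2 : 8 * A j < (k + 1) * η := by
          rw [div_lt_iff₀ hη] at hk
          nlinarith
        rw [one_div, inv_mul_lt_iff₀ (by positivity)]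
        linarith
      have h2 : ∀ q : Fin (N k), ∃ K0 : ℕ, ∀ m ≥ K0, ∀ n ≥ K0,
          (l k q (e (θ m) j - e (θ n) j)) ^ 2 ≤ η / (2 * (N k + 1)) := by
        intro q
        have h3 := Metric.cauchySeq_iff.1 (hxc (j, ⟨k, q⟩)) (Real.sqrt (η / (2 * (N k + 1))))
          (by positivity)
        obtain ⟨K0, hK0⟩ := h3
        refine ⟨K0, fun m hm n hn => ?_⟩
        have h4 := hK0 m hm n hn
        rw [Real.dist_eq] at h4
        have h5 : l k q (e (θ m) j - e (θ n) j) = x (θ m) (j, ⟨k, q⟩) - x (θ n) (j, ⟨k, q⟩) := by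
          rw [map_sub]
        rw [h5, ← sq_abs]
        have h6 := pow_le_pow_left₀ (abs_nonneg _) h4.le 2
        rwa [Real.sq_sqrt (by positivity)] at h6
      choose K0 hK0 using h2
      refine ⟨∑ q, K0 q, fun m hm n hn => ?_⟩
      have hle : ∀ q, K0 q ≤ ∑ q, K0 q := fun q =>
        Finset.single_le_sum (f := K0) (fun _ _ => Nat.zero_le _) (Finset.mem_univ q)
      have h3 := hl k (e (θ m) j - e (θ n) j)
      have h4 : a (e (θ m) j - e (θ n) j) (e (θ m) j - e (θ n) j) ≤ 4 * A j := by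
        have h5 := hS.na (e (θ m) j + e (θ n) j)
        simp only [map_add, add_apply] at h5
        simp only [map_sub, sub_apply]
        have g1 := hae (θ m) j
        have g2 := hae (θ n) j
        have g3 := hA j (θ m)
        have g4 := hA j (θ n)
        linarith
      have h5 : ∑ q, (l k q (e (θ m) j - e (θ n) j)) ^ 2 ≤ η / 2 := by
        calc ∑ q, (l k q (e (θ m) j - e (θ n) j)) ^ 2
            ≤ ∑ q : Fin (N k), η / (2 * (N k + 1)) :=
              Finset.sum_le_sum fun q _ => hK0 q m ((hle q).trans hm) n ((hle q).trans hn)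
          _ = N k * (η / (2 * (N k + 1))) := by simp
          _ ≤ η / 2 := by
              rw [mul_div_assoc', div_le_div_iff₀ (by positivity) (by positivity)]
              nlinarith
      have h6 : 1 / ((k : ℝ) + 1) * a (e (θ m) j - e (θ n) j) (e (θ m) j - e (θ n) j) ≤
          1 / ((k : ℝ) + 1) * (4 * A j) := mul_le_mul_of_nonneg_left h4 (by positivity)
      linarith
    -- the energy
    have h2 : ∀ m n, a (e (θ m) j - e (θ n) j) (e (θ m) j - e (θ n) j) ≤
        2 * A j * (Real.sqrt (Real.exp R) * ‖i (e (θ m) j - e (θ n) j)‖) := by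
      intro m n
      set d := e (θ m) j - e (θ n) j with hd
      have h3 : a d d = a (e (θ m) j) d - a (e (θ n) j) d := by
        have h33 : ∀ x y z : H, a (x - y) z = a x z - a y z := fun x y z => by
          rw [map_sub a, sub_apply]
        exact h33 _ _ _
      have h4 : ∀ n, |a (e (θ n) j) d| ≤ A j * (Real.sqrt (Real.exp R) * ‖i d‖) := by
        intro n
        rw [(hE (θ n)).eig, abs_mul, abs_of_nonneg (hE0n _ _)]
        refine mul_le_mul (hA j _) ?_ (abs_nonneg _) (hA0 j)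
        have h5 := cs (hF (φ (θ n))).sb (hF (φ (θ n))).nb (e (θ n) j) d
        rw [hbe, one_mul] at h5
        have h6 := h5.trans (hni (θ n) d)
        rw [← Real.sqrt_sq (norm_nonneg (i d)), ← Real.sqrt_mul (Real.exp_pos R).le]
        exact Real.abs_le_sqrt h6
      rw [h3]
      have h5 := h4 m
      have h6 := h4 n
      have h7 := le_abs_self (a (e (θ m) j) d)
      have h8 := neg_abs_le (a (e (θ n) j) d)
      linarith
    rw [Metric.cauchySeq_iff]
    intro ε hε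
    have h3 : ∃ η : ℝ, 0 < η ∧ η ≤ 1 ∧ (2 * A j * Real.sqrt (Real.exp R) + 1) * η < ε ^ 2 := by
      set Q := 2 * A j * Real.sqrt (Real.exp R) + 1 with hQ
      have hQp : 0 < Q := by
        have := mul_nonneg (mul_nonneg zero_le_two (hA0 j)) (Real.sqrt_nonneg (Real.exp R))
        linarith
      refine ⟨min 1 (ε ^ 2 / (2 * Q)), by positivity, min_le_left _ _, ?_⟩
      have h4 : Q * min 1 (ε ^ 2 / (2 * Q)) ≤ Q * (ε ^ 2 / (2 * Q)) :=
        mul_le_mul_of_nonneg_left (min_le_right _ _) hQp.le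
      have h5 : Q * (ε ^ 2 / (2 * Q)) = ε ^ 2 / 2 := by field_simp
      have h6 : 0 < ε ^ 2 := by positivity
      linarith
    obtain ⟨η, hη, hη1, hηε⟩ := h3
    obtain ⟨K0, hK0⟩ := h1 (η ^ 2) (by positivity)
    refine ⟨K0, fun m hm n hn => ?_⟩
    rw [dist_eq_norm]
    have h4 := hK0 m hm n hn
    have h5 := h2 m n
    set d := e (θ m) j - e (θ n) j with hd
    have h6 : ‖i d‖ < η := lt_of_pow_lt_pow_left₀ 2 hη.le h4
    have h7 : ‖d‖ ^ 2 < ε ^ 2 := by
      rw [hS.nm]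
      have h8 : 2 * A j * (Real.sqrt (Real.exp R) * ‖i d‖) ≤
          2 * A j * (Real.sqrt (Real.exp R) * η) :=
        mul_le_mul_of_nonneg_left (mul_le_mul_of_nonneg_left h6.le (Real.sqrt_nonneg _))
          (mul_nonneg zero_le_two (hA0 j))
      have h9 : η ^ 2 ≤ η := by nlinarith
      nlinarith
    exact lt_of_pow_lt_pow_left₀ 2 hε.le h7
  choose e0 he0 using fun j => cauchySeq_tendsto_of_complete (hcau j)
  have hφθ : Tendsto (fun n => φ (θ n)) atTop (𝓝 φ0) := hφ.comp hθ.tendsto_atTop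
  have hEθ : ∀ j, Tendsto (fun n => E (θ n) j) atTop (𝓝 (E0 j)) := fun j =>
    (hEt j).comp hθ.tendsto_atTop
  have orth : ∀ p q, b φ0 (e0 p) (e0 q) = if p = q then 1 else 0 := by
    intro p q
    refine tendsto_nhds_unique (b_tendsto hB hF hφθ (he0 p) (he0 q)) ?_
    refine tendsto_const_nhds.congr fun n => ?_
    rw [(hE (θ n)).orth]
  have eig : ∀ j v, a (e0 j) v = E0 j * b φ0 (e0 j) v := by
    intro j v
    have h1 : Tendsto (fun n => a (e (θ n) j) v) atTop (𝓝 (a (e0 j) v)) := by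
      have hc : Continuous fun y : H => a y v := by fun_prop
      exact (hc.tendsto _).comp (he0 j)
    have h2 := (hEθ j).mul (b_tendsto hB hF hφθ (he0 j) (tendsto_const_nhds (x := v)))
    refine tendsto_nhds_unique h1 (h2.congr fun n => ?_)
    rw [(hE (θ n)).eig]
  have tt : Tendsto E0 atTop atTop := by
    obtain ⟨e', E', hE'⟩ := tSp H a (b φ0) (hF _)
    refine hE'.tt.congr fun j => ?_
    exact (Pool.Agent.Y592.QE.mm H a (b φ0) (hF _) e' E' hE' j).symm
  refine ⟨θ, e0, E0, hθ, ⟨orth, eig, fun p q hpq => l2 _ _ _ hpq, tt, fun v => ?_⟩, he0, hEt⟩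
  -- completeness
  have hlow : ∀ K, 0 < E0 K →
      b φ0 v v ≤ ∑ j ∈ Finset.range K, (b φ0 v (e0 j)) ^ 2 + a v v / E0 K := by
    intro K hK
    have h1 : Tendsto (fun n => b (φ (θ n)) v v) atTop (𝓝 (b φ0 v v)) :=
      b_tendsto hB hF hφθ tendsto_const_nhds tendsto_const_nhds
    have h2 : Tendsto (fun n => ∑ j ∈ Finset.range K, (b (φ (θ n)) v (e (θ n) j)) ^ 2 +
        a v v / E (θ n) K) atTop
        (𝓝 (∑ j ∈ Finset.range K, (b φ0 v (e0 j)) ^ 2 + a v v / E0 K)) :=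
      (tendsto_finsetSum _ fun j _ =>
        (b_tendsto hB hF hφθ tendsto_const_nhds (he0 j)).pow 2).add
        (tendsto_const_nhds.div (hEθ K) hK.ne')
    refine le_of_tendsto_of_tendsto h1 h2 ?_
    filter_upwards [(hEθ K).eventually (lt_mem_nhds hK)] with n hn
    exact prt (hF _) (hE (θ n)) v K hn
  have hup : ∀ S : Finset ℕ, ∑ j ∈ S, (b φ0 v (e0 j)) ^ 2 ≤ b φ0 v v := fun S =>
    (bes (hF φ0) orth eig v S).1
  have hsum : Summable fun j => (b φ0 v (e0 j)) ^ 2 :=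
    summable_of_sum_le (fun j => sq_nonneg _) hup
  have heq : ∑' j, (b φ0 v (e0 j)) ^ 2 = b φ0 v v := by
    refine le_antisymm (hsum.tsum_le_of_sum_le hup) ?_
    have h1 := hsum.hasSum.tendsto_sum_nat
    have h2 : Tendsto (fun K => ∑ j ∈ Finset.range K, (b φ0 v (e0 j)) ^ 2 + a v v / E0 K) atTop
        (𝓝 (∑' j, (b φ0 v (e0 j)) ^ 2 + 0)) := h1.add (tt.const_div_atTop _)
    rw [add_zero] at h2
    refine ge_of_tendsto h2 ?_
    filter_upwards [tt.eventually_gt_atTop 0] with K hK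
    exact hlow K hK
  rw [← heq]
  exact hsum.hasSum

end

end Pool.Agent.H240.NX
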